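import Pool.Agent.W206.CU.Zeta

set_option autoImplicit false

/-! The zero set of a nonzero polynomial in `ℤ_p^n` is a null set, so the density of the
solutions of `F = 0` modulo `p ^ M` tends to zero. -/

namespace Pool.Agent.W195.PZ

open MvPolynomial MeasureTheory Filter Topology
open Pool.Agent.W206.CU

section pi

variable {p : ℕ} [hp : Fact p.Prime] [MeasurableSpace ℤ_[p]] [BorelSpace ℤ_[p]]

/-- Haar measure on `ℤ_p`. -/
noncomputable def lam (p : ℕ) [Fact p.Prime] [MeasurableSpace ℤ_[p]] [BorelSpace ℤ_[p]] :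
    Measure ℤ_[p] :=
  Measure.addHaarMeasure (⊤ : TopologicalSpace.PositiveCompacts ℤ_[p])

instance : (lam p).IsAddHaarMeasure := by
  unfold lam
  infer_instance

instance : IsProbabilityMeasure (lam p) :=
  ⟨Measure.addHaarMeasure_self (K₀ := (⊤ : TopologicalSpace.PositiveCompacts ℤ_[p]))⟩

instance : NullSingletonClass (lam p) := by
  have h : Tendsto (fun k : ℕ => (p : ℤ_[p]) ^ k) atTop (𝓝[≠] 0) := by
    refine tendsto_nhdsWithin_iff.2 ⟨tendsto_pow_atTop_nhds_zero_of_norm_lt_one ?_,
      Eventually.of_forall fun k => ?_⟩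
    · rw [PadicInt.norm_p]
      exact inv_lt_one_of_one_lt₀ (by exact_mod_cast hp.out.one_lt)
    · exact pow_ne_zero _ (by exact_mod_cast hp.out.ne_zero)
  have : (𝓝[≠] (0 : ℤ_[p])).NeBot := h.neBot
  infer_instance

theorem null_pi : ∀ (n : ℕ) (F : MvPolynomial (Fin n) ℤ_[p]), F ≠ 0 →
    (Measure.pi fun _ : Fin n => lam p) {x | eval x F = 0} = 0 := by
  intro n
  induction n with
  | zero =>
    intro F hF
    have h : {x : Fin 0 → ℤ_[p] | eval x F = 0} = ∅ := by
      ext x
      simp only [Set.mem_ofPred_eq, Set.mem_empty_iff_false, iff_false]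
      intro hx
      apply hF
      rw [MvPolynomial.eq_C_of_isEmpty F] at hx ⊢
      rw [eval_C] at hx
      rw [hx, C_0]
    rw [h, measure_empty]
  | succ n ih =>
    intro F hF
    have hP : finSuccEquiv ℤ_[p] n F ≠ 0 := by
      simpa using hF
    have hlc : (finSuccEquiv ℤ_[p] n F).leadingCoeff ≠ 0 :=
      Polynomial.leadingCoeff_ne_zero.2 hP
    have hmp := measurePreserving_piFinSuccAbove (fun _ : Fin (n + 1) => lam p) 0
    set T : Set (ℤ_[p] × (Fin n → ℤ_[p])) :=
      {q | eval (Fin.cons q.1 q.2 : Fin (n + 1) → ℤ_[p]) F = 0} with hT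
    have hTm : MeasurableSet T := by
      have hc : Continuous fun q : ℤ_[p] × (Fin n → ℤ_[p]) =>
          eval (Fin.cons q.1 q.2 : Fin (n + 1) → ℤ_[p]) F := by
        refine (MvPolynomial.continuous_eval F).comp ?_
        refine continuous_pi fun i => ?_
        refine Fin.cases ?_ (fun j => ?_) i
        · simpa using continuous_fst
        · simpa [Function.comp_def] using
            (continuous_apply j).comp (continuous_snd (X := ℤ_[p]) (Y := Fin n → ℤ_[p]))
      exact (isClosed_singleton.preimage hc).measurableSet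
    have hset : {x : Fin (n + 1) → ℤ_[p] | eval x F = 0} =
        (MeasurableEquiv.piFinSuccAbove (fun _ : Fin (n + 1) => ℤ_[p]) 0) ⁻¹' T := by
      ext x
      simp only [Set.mem_ofPred_eq, Set.mem_preimage, hT]
      have : (Fin.cons ((MeasurableEquiv.piFinSuccAbove (fun _ : Fin (n + 1) => ℤ_[p]) 0) x).1
          ((MeasurableEquiv.piFinSuccAbove (fun _ : Fin (n + 1) => ℤ_[p]) 0) x).2 :
          Fin (n + 1) → ℤ_[p]) = x := by
        funext i
        refine Fin.cases ?_ (fun j => ?_) i
        · rfl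
        · rfl
      rw [this]
    rw [hset, hmp.measure_preimage_equiv, Measure.prod_apply_symm hTm]
    refine lintegral_eq_zero_of_ae_eq_zero ?_
    have hae : ∀ᵐ y ∂(Measure.pi fun _ : Fin n => lam p),
        eval y (finSuccEquiv ℤ_[p] n F).leadingCoeff ≠ 0 := by
      rw [ae_iff]
      simpa using ih _ hlc
    filter_upwards [hae] with y hy
    have hne : Polynomial.map (eval y) (finSuccEquiv ℤ_[p] n F) ≠ 0 := by
      intro h0
      apply hy
      have := congrArg (fun q => Polynomial.coeff q (finSuccEquiv ℤ_[p] n F).natDegree) h0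
      simpa [Polynomial.coeff_map] using this
    have hfin : ((fun x => (x, y)) ⁻¹' T).Finite := by
      refine (Polynomial.finite_setOfPred_isRoot hne).subset ?_
      intro x hx
      simp only [hT, Set.mem_preimage, Set.mem_ofPred_eq] at hx
      rw [MvPolynomial.eval_eq_eval_mv_eval'] at hx
      exact hx
    exact hfin.measure_zero _

end pi

theorem null_hm {p : ℕ} [hp : Fact p.Prime] {n : ℕ} [MeasurableSpace ℤ_[p]] [BorelSpace ℤ_[p]]
    {F : MvPolynomial (Fin n) ℤ} (hF : F ≠ 0) :
    hm p (Fin n) {x | (aeval x F : ℤ_[p]) = 0} = 0 := by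
  have hF' : map (Int.castRingHom ℤ_[p]) F ≠ 0 := by
    intro h
    apply hF
    exact (map_injective (Int.castRingHom ℤ_[p]) (RingHom.injective_int _)) (by simpa using h)
  have hset : {x : Fin n → ℤ_[p] | (aeval x F : ℤ_[p]) = 0} =
      {x | eval x (map (Int.castRingHom ℤ_[p]) F) = 0} := by
    ext x
    rw [Set.mem_ofPred_eq, Set.mem_ofPred_eq, aeval_def, eval_map]
    rfl
  have h0 := null_pi (p := p) n _ hF'
  have hu := Measure.addHaarMeasure_unique (Measure.pi fun _ : Fin n => lam p)
    (⊤ : TopologicalSpace.PositiveCompacts (Fin n → ℤ_[p]))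
  rw [hu, Measure.smul_apply, smul_eq_mul, mul_eq_zero] at h0
  rw [hset]
  refine h0.resolve_left ?_
  simp

theorem null {p : ℕ} [Fact p.Prime] {n : ℕ} {F : MvPolynomial (Fin n) ℤ} (hF : F ≠ 0) :
    Filter.Tendsto (fun M => ((Pool.Agent.W206.CU.dens p F M : ℚ) : ℝ)) Filter.atTop
      (nhds 0) := by
  let _ : MeasurableSpace ℤ_[p] := borel _
  have _ : BorelSpace ℤ_[p] := ⟨rfl⟩
  have h1 : Tendsto (fun M => hm p (Fin n) (lev F M)) atTop
      (𝓝 (hm p (Fin n) (⋂ M, lev F M))) := by
    refine tendsto_measure_iInter_atTop (fun M => (measurableSet_lev F M).nullMeasurableSet) ?_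
      ⟨0, measure_ne_top _ _⟩
    intro M N h x hx
    exact (pow_dvd_pow _ h).trans hx
  have h2 : (⋂ M, lev (p := p) F M) = {x | (aeval x F : ℤ_[p]) = 0} := by
    ext x
    simp only [Set.mem_iInter, lev_eq, Set.mem_ofPred_eq]
    constructor
    · intro h
      have ht : Tendsto (fun M : ℕ => (p : ℝ) ^ (-(M : ℤ))) atTop (𝓝 0) := by
        have : (fun M : ℕ => (p : ℝ) ^ (-(M : ℤ))) = fun M : ℕ => ((p : ℝ)⁻¹) ^ M := by
          funext M
          rw [zpow_neg, zpow_natCast, inv_pow]
        rw [this]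
        have hp1 : (1 : ℝ) < p := by exact_mod_cast (Fact.out : p.Prime).one_lt
        exact tendsto_pow_atTop_nhds_zero_of_lt_one (by positivity)
          (inv_lt_one_of_one_lt₀ hp1)
      have := ge_of_tendsto' ht h
      exact norm_le_zero_iff.1 this
    · intro h M
      rw [h, norm_zero]
      positivity
  rw [h2, null_hm hF] at h1
  have h3 := (ENNReal.tendsto_toReal ENNReal.zero_ne_top).comp h1
  simp only [ENNReal.toReal_zero] at h3
  refine h3.congr fun M => ?_
  exact measure_sol F M

end Pool.Agent.W195.PZ
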